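import Pool.Agent.H346.AT.Non
import Pool.Agent.H346.QC.Main

set_option autoImplicit false

/-!
# A hyperbolic group with a non-elementary acylindrical action on a tree which is dominated by no
quasi-convex splitting
-/

namespace Pool.Agent.Results.MP_172f05_al.NoDominatingSplitting

universe u v

open Pool.Agent.H322R3.Hyp (wlen IsHyperbolic)

/-- Gromov hyperbolic groups: for some finite generating set `S`, the word metric
`d(x, y) = wlen S (x⁻¹ y)` satisfies Gromov's four point condition. -/
def Hyperbolic (G : Type) [Group G] : Prop :=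
  ∃ S : Set G, S.Finite ∧ Subgroup.closure S = ⊤ ∧ IsHyperbolic S

/-- `H` is quasi-convex in `G`: for some finite generating set `S` of `G` and some `R`, every
element `x` on a geodesic of the Cayley graph joining two elements `h`, `h'` of `H` is at distance
at most `R` from `H`. -/
def QuasiConvex {G : Type} [Group G] (H : Subgroup G) : Prop :=
  ∃ S : Set G, S.Finite ∧ Subgroup.closure S = ⊤ ∧ ∃ R : ℕ, ∀ h ∈ H, ∀ h' ∈ H, ∀ x : G,
    wlen S (h⁻¹ * x) + wlen S (x⁻¹ * h') = wlen S (h⁻¹ * h') → ∃ k ∈ H, wlen S (x⁻¹ * k) ≤ R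

/-- An action of the group `G` on a simplicial tree with vertex set `V`, by simplicial
automorphisms and without inversions. -/
structure TreeAction (G : Type) [Group G] (V : Type u) where
  /-- the tree -/
  T : SimpleGraph V
  /-- it is a tree -/
  isTree : T.IsTree
  /-- the action of `G` on the vertices -/
  act : G →* Equiv.Perm V
  /-- it is by automorphisms of the tree -/
  adj : ∀ g u v, T.Adj u v → T.Adj (act g u) (act g v)
  /-- no element exchanges the ends of an edge -/
  noInversion : ∀ g u v, T.Adj u v → ¬ (act g u = v ∧ act g v = u)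

namespace TreeAction

variable {G : Type} [Group G] {V : Type u} (X : TreeAction G V)

/-- The action is acylindrical: for some integers `k ≥ 0` and `C > 0`, every (embedded) edge path
of length at least `k` has a pointwise stabiliser of cardinality at most `C`. -/
def Acylindrical : Prop :=
  ∃ k C : ℕ, 0 < C ∧ ∀ (u v : V) (p : X.T.Walk u v), p.IsPath → k ≤ p.length →
    {g : G | ∀ x ∈ p.support, X.act g x = x}.encard ≤ C

/-- The bi-infinite geodesic `γ` is an axis of `g`, i.e. `g` translates it by a positive amount. -/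
def IsAxis (g : G) (γ : ℤ → V) : Prop :=
  (∀ i j : ℤ, X.T.dist (γ i) (γ j) = (i - j).natAbs) ∧
    ∃ ℓ : ℤ, 0 < ℓ ∧ ∀ i : ℤ, X.act g (γ i) = γ (i + ℓ)

/-- The action is non-elementary: there are two (hyperbolic) elements whose axes have no common end,
i.e. whose axes have only finitely many common vertices. -/
def NonElementary : Prop :=
  ∃ (g h : G) (γ η : ℤ → V), X.IsAxis g γ ∧ X.IsAxis h η ∧ (Set.range γ ∩ Set.range η).Finite

/-- The stabiliser of the edge joining `u` and `v` (the elements fixing `u` and `v`). -/
def edgeStabiliser (u v : V) : Subgroup G where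
  carrier := {g | X.act g u = u ∧ X.act g v = v}
  one_mem' := by simp
  mul_mem' := by
    rintro a b ⟨h1, h2⟩ ⟨h3, h4⟩
    exact ⟨by rw [map_mul, Equiv.Perm.mul_apply, h3, h1],
      by rw [map_mul, Equiv.Perm.mul_apply, h4, h2]⟩
  inv_mem' := by
    rintro a ⟨h1, h2⟩
    exact ⟨by rw [map_inv, Equiv.Perm.inv_eq_iff_eq, h1],
      by rw [map_inv, Equiv.Perm.inv_eq_iff_eq, h2]⟩

/-- The action is a quasi-convex splitting: all its edge stabilisers are quasi-convex. -/
def QuasiConvexSplitting : Prop := ∀ u v : V, X.T.Adj u v → QuasiConvex (X.edgeStabiliser u v)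

/-- The action on `X'` dominates the action on `X`: there is an equivariant surjective graph
morphism (edges may be sent to edges or collapsed to vertices). -/
def Dominates {V' : Type v} (X' : TreeAction G V') (X : TreeAction G V) : Prop :=
  ∃ f : V' → V, Function.Surjective f ∧
    (∀ a b, X'.T.Adj a b → X.T.Adj (f a) (f b) ∨ f a = f b) ∧
    ∀ g a, f (X'.act g a) = X.act g (f a)

end TreeAction

open Pool.Agent.H346.AT Pool.Agent.H346.QC in
/-- There is a hyperbolic group `G` with an acylindrical and non-elementary action on a tree `T`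
which is dominated by no quasi-convex splitting of `G`. Moreover, every quasi-convex splitting of
`G` has a vertex fixed by `G`. -/
theorem result : ∃ (G : Type) (_ : Group G), Hyperbolic G ∧
    ∃ (V : Type) (X : TreeAction G V), X.Acylindrical ∧ X.NonElementary ∧
      ∀ (V' : Type u) (X' : TreeAction G V'), X'.QuasiConvexSplitting →
        (∃ v' : V', ∀ g : G, X'.act g v' = v') ∧ ¬ X'.Dominates X := by
  refine ⟨GG, inferInstance, ⟨_, range_ge_finite, closure_ge, hyp⟩, BV CC,
    ⟨bsGraph CC, tree, bsAct CC, bs_adj_act, bs_noinv⟩, ⟨3, 1, one_pos, ?_⟩, ?_, ?_⟩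
  · intro u v p hp hl
    have h : {g : GG | ∀ x ∈ p.support, bsAct CC g x = x} ⊆ {1} := by
      intro g hg
      exact CC_acyl millRes p hp hl g hg
    exact (Set.encard_le_encard h).trans (by simp)
  · obtain ⟨g, h, γ, η, ⟨h1, h2⟩, ⟨h3, h4⟩, h5⟩ := axes
    exact ⟨g, h, γ, η, ⟨h1, 2, by norm_num, h2⟩, ⟨h3, 2, by norm_num, h4⟩, h5⟩
  · intro V' X' hX'
    obtain ⟨v', hv'⟩ := main X'.isTree X'.act X'.adj X'.noInversion (by
      intro u v huv H hH
      have e : H = X'.edgeStabiliser u v := by
        ext g; exact hH g
      rw [e]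
      exact hX' u v huv)
    refine ⟨⟨v', hv'⟩, ?_⟩
    rintro ⟨f, -, -, hf⟩
    refine bs_no_fixed (D := CC) ?_ ⟨f v', fun g => ?_⟩
    · intro i
      cases i
      · exact ⟨ge .w, by rw [CC_false]; exact w_not_mem millRes⟩
      · exact ⟨ge (.x 0) ^ 1, x_pow_not_mem (by norm_num)⟩
    · have := hf g v'
      rw [hv'] at this
      exact this.symm

end Pool.Agent.Results.MP_172f05_al.NoDominatingSplitting
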